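import Pool.Agent.Q256.MP.Stm2

/-!
# Project MP (helper256), jobs LAT and SZ: the elements of a lattice in a box
-/

set_option autoImplicit false

noncomputable section

namespace Pool.Agent.Q123.MPP

open Filter Topology MeasureTheory
open scoped Pointwise
open Pool.Agent.Q256.MP

/-- a basis of `L` with a rational left inverse -/
theorem lat_basis {ι : Type} [Fintype ι] (L : Submodule ℤ (ι → ℤ)) :
    ∃ (s : ℕ) (_ : s = Module.finrank ℤ L) (b : Fin s → ι → ℤ) (A : Fin s → ι → ℚ),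
      (∀ g : ι → ℤ, g ∈ L ↔ ∃ a : Fin s → ℤ, g = fun i => ∑ k, a k * b k i) ∧
      ∀ k l, ∑ i, A k i * (b l i : ℚ) = if k = l then 1 else 0 := by
  classical
  obtain ⟨s, hs⟩ : ∃ s, s = Module.finrank ℤ L := ⟨_, rfl⟩
  refine ⟨s, hs, ?_⟩
  subst hs
  let s := Module.finrank ℤ L
  let B : Module.Basis (Fin s) ℤ L := Module.finBasis ℤ L
  let b : Fin s → ι → ℤ := fun k => (B k : ι → ℤ)
  let f : (ι → ℤ) →ₗ[ℤ] (ι → ℚ) := (Int.castAddHom ℚ).toIntLinearMap.compLeft ι
  have hf : ∀ g i, f g i = (g i : ℚ) := fun g i => rfl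
  have hfi : LinearMap.ker f = ⊥ := by
    rw [LinearMap.ker_eq_bot]
    intro g g' h
    funext i
    have := congrFun h i
    rw [hf, hf] at this
    exact_mod_cast this
  have h1 : LinearIndependent ℤ b := B.linearIndependent.map' L.subtype (Submodule.ker_subtype L)
  have h2 : LinearIndependent ℤ (f ∘ b) := h1.map' f hfi
  have h3 : LinearIndependent ℚ (f ∘ b) := (LinearIndependent.iff_fractionRing ℤ ℚ).1 h2
  let w : (Fin s → ℚ) →ₗ[ℚ] (ι → ℚ) := Fintype.linearCombination ℚ (f ∘ b)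
  have hw : LinearMap.ker w = ⊥ := by
    rw [LinearMap.ker_eq_bot]
    exact h3.fintypeLinearCombination_injective
  obtain ⟨g, hg⟩ := w.exists_leftInverse_of_injective hw
  refine ⟨b, fun k i => g (Pi.single i 1) k, ?_, ?_⟩
  · intro x
    constructor
    · intro hx
      refine ⟨fun k => B.repr ⟨x, hx⟩ k, ?_⟩
      have h4 := B.sum_repr ⟨x, hx⟩
      have h5 : ((∑ k, B.repr ⟨x, hx⟩ k • B k : L) : ι → ℤ) = x := congrArg (Subtype.val) h4
      funext i
      have h6 : ((∑ k, B.repr ⟨x, hx⟩ k • B k : L) : ι → ℤ) i = ∑ k, B.repr ⟨x, hx⟩ k * b k i := by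
        simp only [Submodule.coe_sum, Finset.sum_apply, Submodule.coe_smul, Pi.smul_apply, smul_eq_mul]
        rfl
      rw [h5] at h6
      exact h6
    · rintro ⟨a, rfl⟩
      have h4 : (fun i => ∑ k, a k * b k i) = ((∑ k, a k • B k : L) : ι → ℤ) := by
        funext i
        simp [b]
      rw [h4]
      exact Submodule.coe_mem _
  · intro k l
    have h4 : g (w (Pi.single l 1)) = Pi.single l 1 := LinearMap.congr_fun hg _
    have h5 : w (Pi.single l 1) = f (b l) := by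
      simp [w]
    rw [h5] at h4
    have h6 : f (b l) = ∑ i, (b l i : ℚ) • (Pi.single i (1 : ℚ) : ι → ℚ) := by
      funext i
      rw [hf, Finset.sum_apply]
      simp [Pi.single_apply]
    rw [h6, map_sum] at h4
    have h7 := congrFun h4 k
    rw [Finset.sum_apply, Pi.single_apply] at h7
    rw [← h7]
    refine Finset.sum_congr rfl fun i _ => ?_
    rw [map_smul, Pi.smul_apply, smul_eq_mul, mul_comm]

/-- the combinations of the basis vectors -/
def cm {ι : Type} {s : ℕ} (b : Fin s → ι → ℤ) (a : Fin s → ℤ) : ι → ℤ := fun i => ∑ k, a k * b k i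

theorem recover {ι : Type} [Fintype ι] {s : ℕ} {b : Fin s → ι → ℤ} {A : Fin s → ι → ℚ}
    (hA : ∀ k l, ∑ i, A k i * (b l i : ℚ) = if k = l then 1 else 0) (x : Fin s → ℝ) (k : Fin s) :
    x k = ∑ i, (A k i : ℝ) * ∑ l, x l * (b l i : ℝ) := by
  have hA' : ∀ k l, ∑ i, (A k i : ℝ) * (b l i : ℝ) = if k = l then 1 else 0 := by
    intro k l
    have h2 : ((∑ i, A k i * (b l i : ℚ) : ℚ) : ℝ) = ((if k = l then (1 : ℚ) else 0 : ℚ) : ℝ) := by rw [hA k l]
    push_cast at h2
    rw [h2]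
    split_ifs <;> simp
  have e : ∑ i, (A k i : ℝ) * ∑ l, x l * (b l i : ℝ) = ∑ l, x l * ∑ i, (A k i : ℝ) * (b l i : ℝ) := by
    simp only [Finset.mul_sum]
    rw [Finset.sum_comm]
    refine Finset.sum_congr rfl fun l _ => Finset.sum_congr rfl fun i _ => ?_
    ring
  rw [e]
  simp [hA']

theorem cm_inj {ι : Type} [Fintype ι] {s : ℕ} {b : Fin s → ι → ℤ} {A : Fin s → ι → ℚ}
    (hA : ∀ k l, ∑ i, A k i * (b l i : ℚ) = if k = l then 1 else 0) : Function.Injective (cm b) := by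
  intro a a' h
  funext k
  have h1 := recover hA (fun k => (a k : ℝ)) k
  have h2 := recover hA (fun k => (a' k : ℝ)) k
  have h3 : ∀ i, ∑ l, (a l : ℝ) * (b l i : ℝ) = ∑ l, (a' l : ℝ) * (b l i : ℝ) := by
    intro i
    have := congrFun h i
    unfold cm at this
    exact_mod_cast this
  have h4 : (a k : ℝ) = a' k := by
    rw [h1, h2]
    simp only [h3]
  exact_mod_cast h4

/-- the convex body -/
def bod {ι : Type} {s : ℕ} (b : Fin s → ι → ℤ) : Set (Fin s → ℝ) := {x | ∀ i, |∑ k, x k * (b k i : ℝ)| ≤ 1}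

theorem bod_bd {ι : Type} [Fintype ι] {s : ℕ} {b : Fin s → ι → ℤ} {A : Fin s → ι → ℚ}
    (hA : ∀ k l, ∑ i, A k i * (b l i : ℚ) = if k = l then 1 else 0) : Bornology.IsBounded (bod b) := by
  refine (Metric.isBounded_Icc (fun k => -∑ i, |(A k i : ℝ)|) (fun k => ∑ i, |(A k i : ℝ)|)).subset ?_
  intro x hx
  have h : ∀ k, |x k| ≤ ∑ i, |(A k i : ℝ)| := by
    intro k
    rw [recover hA x k]
    refine (Finset.abs_sum_le_sum_abs _ _).trans (Finset.sum_le_sum fun i _ => ?_)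
    rw [abs_mul]
    exact mul_le_of_le_one_right (abs_nonneg _) (hx i)
  constructor
  · intro k
    exact (abs_le.mp (h k)).1
  · intro k
    exact (abs_le.mp (h k)).2

theorem bod_closed {ι : Type} {s : ℕ} (b : Fin s → ι → ℤ) : IsClosed (bod b) := by
  unfold bod
  rw [Set.ofPred_forall]
  refine isClosed_iInter fun i => isClosed_le ?_ continuous_const
  fun_prop

theorem bod_convex {ι : Type} {s : ℕ} (b : Fin s → ι → ℤ) : Convex ℝ (bod b) := by
  intro x hx y hy p q hp hq hpq i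
  have e : ∑ k, (p • x + q • y) k * (b k i : ℝ) = p * ∑ k, x k * (b k i : ℝ) + q * ∑ k, y k * (b k i : ℝ) := by
    rw [Finset.mul_sum, Finset.mul_sum, ← Finset.sum_add_distrib]
    refine Finset.sum_congr rfl fun k _ => ?_
    simp only [Pi.add_apply, Pi.smul_apply, smul_eq_mul]
    ring
  rw [e]
  have h1 := hx i
  have h2 := hy i
  calc |p * ∑ k, x k * (b k i : ℝ) + q * ∑ k, y k * (b k i : ℝ)|
      ≤ |p * ∑ k, x k * (b k i : ℝ)| + |q * ∑ k, y k * (b k i : ℝ)| := abs_add_le _ _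
    _ = p * |∑ k, x k * (b k i : ℝ)| + q * |∑ k, y k * (b k i : ℝ)| := by
        rw [abs_mul, abs_mul, abs_of_nonneg hp, abs_of_nonneg hq]
    _ ≤ p * 1 + q * 1 := by gcongr
    _ = 1 := by linarith

theorem card_bod {ι : Type} [Fintype ι] {s : ℕ} {b : Fin s → ι → ℤ} {A : Fin s → ι → ℚ}
    (hA : ∀ k l, ∑ i, A k i * (b l i : ℚ) = if k = l then 1 else 0) (n : ℕ) (hn : 1 ≤ n) :
    Nat.card ↑(bod b ∩ (n : ℝ)⁻¹ • (Submodule.span ℤ (Set.range (Pi.basisFun ℝ (Fin s))) : Set (Fin s → ℝ))) =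
      {g : ι → ℤ | (∀ i, |g i| ≤ (n : ℤ)) ∧ ∃ a : Fin s → ℤ, g = cm b a}.ncard := by
  have hn0 : (0 : ℝ) < n := by exact_mod_cast hn
  set T : Set (Fin s → ℤ) := {a | ∀ i, |cm b a i| ≤ (n : ℤ)} with hT
  have h1 : {g : ι → ℤ | (∀ i, |g i| ≤ (n : ℤ)) ∧ ∃ a : Fin s → ℤ, g = cm b a} = cm b '' T := by
    ext g
    constructor
    · rintro ⟨h, a, rfl⟩
      exact ⟨a, h, rfl⟩
    · rintro ⟨a, h, rfl⟩
      exact ⟨h, a, rfl⟩
  have h2 : bod b ∩ (n : ℝ)⁻¹ • (Submodule.span ℤ (Set.range (Pi.basisFun ℝ (Fin s))) : Set (Fin s → ℝ)) =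
      (fun (a : Fin s → ℤ) (k : Fin s) => (n : ℝ)⁻¹ * (a k : ℝ)) '' T := by
    have e : ∀ (a : Fin s → ℤ) i, ∑ k, (n : ℝ)⁻¹ * (a k : ℝ) * (b k i : ℝ) = (n : ℝ)⁻¹ * (cm b a i : ℝ) := by
      intro a i
      unfold cm
      push_cast
      rw [Finset.mul_sum]
      refine Finset.sum_congr rfl fun k _ => by ring
    have e2 : ∀ (a : Fin s → ℤ), ((fun k => (n : ℝ)⁻¹ * (a k : ℝ)) ∈ bod b) ↔ a ∈ T := by
      intro a
      unfold bod
      rw [Set.mem_ofPred_eq]
      refine forall_congr' fun i => ?_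
      rw [e, abs_mul, abs_of_pos (inv_pos.mpr hn0), inv_mul_le_iff₀ hn0, mul_one]
      exact_mod_cast Iff.rfl
    ext x
    constructor
    · rintro ⟨hx1, hx2⟩
      rw [Set.mem_smul_set] at hx2
      obtain ⟨y, hy, rfl⟩ := hx2
      have hy' := (Module.Basis.mem_span_iff_repr_mem ℤ (Pi.basisFun ℝ (Fin s)) y).1 hy
      choose a ha using hy'
      have ha' : ∀ k, (a k : ℝ) = y k := fun k => by
        have := ha k
        rw [Pi.basisFun_repr] at this
        exact this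
      have e3 : (n : ℝ)⁻¹ • y = fun k => (n : ℝ)⁻¹ * (a k : ℝ) := by
        funext k
        rw [ha' k]
        rfl
      rw [e3] at hx1 ⊢
      exact ⟨a, (e2 a).1 hx1, rfl⟩
    · rintro ⟨a, ha, rfl⟩
      refine ⟨(e2 a).2 ha, ?_⟩
      rw [Set.mem_smul_set]
      refine ⟨fun k => (a k : ℝ), ?_, ?_⟩
      · refine (Module.Basis.mem_span_iff_repr_mem ℤ (Pi.basisFun ℝ (Fin s)) _).2 fun k => ⟨a k, ?_⟩
        rw [Pi.basisFun_repr]
        rfl
      · funext k
        rfl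
  rw [h1, h2, Set.ncard_image_of_injective _ (cm_inj hA), Nat.card_coe_set_eq, Set.ncard_image_of_injective]
  intro a a' h
  funext k
  have := congrFun h k
  simp only at this
  have h3 := mul_left_cancel₀ (inv_ne_zero hn0.ne') this
  exact_mod_cast h3

theorem pow_div_lim {s r : ℕ} (h : s ≤ r) :
    ∃ c : ℝ, Tendsto (fun H : ℕ => (H : ℝ) ^ s / (H : ℝ) ^ r) atTop (𝓝 c) := by
  rcases h.eq_or_lt with rfl | h
  · refine ⟨1, tendsto_const_nhds.congr' ?_⟩
    filter_upwards [eventually_ge_atTop 1] with H hH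
    have : (0 : ℝ) < H := by exact_mod_cast hH
    rw [div_self (by positivity)]
  · refine ⟨0, ?_⟩
    have h1 : Tendsto (fun H : ℕ => ((H : ℝ) ^ (r - s))⁻¹) atTop (𝓝 0) := by
      refine tendsto_inv_atTop_zero.comp ?_
      exact (tendsto_pow_atTop (by omega)).comp tendsto_natCast_atTop_atTop
    refine h1.congr' ?_
    filter_upwards [eventually_ge_atTop 1] with H hH
    have h0 : (0 : ℝ) < H := by exact_mod_cast hH
    have e : (H : ℝ) ^ r = (H : ℝ) ^ s * (H : ℝ) ^ (r - s) := by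
      rw [← pow_add]; congr 1; omega
    rw [e, div_mul_eq_div_div, div_self (by positivity), one_div]

/-- **JOB LAT** -/
theorem lat : S_lat := by
  intro ι _ L r hr
  obtain ⟨s, hs, b, A, hb, hA⟩ := lat_basis L
  rw [← hs] at hr
  have h1 := tendsto_card_div_pow_atTop_volume (bod b) (bod_bd hA) (bod_closed b).measurableSet
    ((bod_convex b).addHaar_frontier volume)
  rw [Fintype.card_fin] at h1
  obtain ⟨c, hc⟩ := pow_div_lim hr
  refine ⟨_, (h1.mul hc).congr' ?_⟩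
  filter_upwards [eventually_ge_atTop 1] with H hH
  have h0 : (0 : ℝ) < H := by exact_mod_cast hH
  rw [card_bod hA H hH]
  have e : {g : ι → ℤ | (∀ i, |g i| ≤ (H : ℤ)) ∧ ∃ a : Fin s → ℤ, g = cm b a} =
      {g : ι → ℤ | (∀ i, |g i| ≤ (H : ℤ)) ∧ g ∈ L} := by
    ext g
    exact and_congr_right fun _ => (hb g).symm
  rw [e]
  field_simp

/-- **JOB SZ** -/
theorem sz : S_sz := by
  classical
  intro ι _ L r hr p hp
  obtain ⟨s, hs, b, A, hb, hA⟩ := lat_basis L
  rw [← hs] at hr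
  obtain ⟨g₀, hg₀, hp₀⟩ := hp
  -- the polynomial in the coordinates
  let P : MvPolynomial (Fin s) ℤ := MvPolynomial.bind₁ (fun i => ∑ k, MvPolynomial.C (b k i) * MvPolynomial.X k) p
  have hP : ∀ a : Fin s → ℤ, MvPolynomial.eval a P = MvPolynomial.eval (cm b a) p := by
    intro a
    change MvPolynomial.eval a (MvPolynomial.bind₁ _ p) = _
    rw [MvPolynomial.eval, MvPolynomial.eval₂Hom_bind₁]
    congr 2
    funext i
    unfold cm
    simp [mul_comm]
  have hP0 : P ≠ 0 := by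
    obtain ⟨a, ha⟩ := (hb g₀).1 hg₀
    intro h
    apply hp₀
    have := hP a
    rw [h, map_zero] at this
    rw [ha]
    exact this.symm
  -- the bound for the coordinates
  obtain ⟨C', hC'⟩ : ∃ C' : ℕ, ∀ k, ∑ i, |(A k i : ℝ)| ≤ C' := by
    obtain ⟨C', hC'⟩ := exists_nat_ge (∑ k, ∑ i, |(A k i : ℝ)|)
    refine ⟨C', fun k => le_trans ?_ hC'⟩
    exact Finset.single_le_sum (f := fun k => ∑ i, |(A k i : ℝ)|) (fun k _ => Finset.sum_nonneg fun i _ => abs_nonneg _)
      (Finset.mem_univ k)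
  have hcoord : ∀ (H : ℕ) (a : Fin s → ℤ), (∀ i, |cm b a i| ≤ (H : ℤ)) → ∀ k, |a k| ≤ (C' * H : ℤ) := by
    intro H a ha k
    have h1 := recover hA (fun k => (a k : ℝ)) k
    have h2 : |(a k : ℝ)| ≤ C' * H := by
      rw [h1]
      calc |∑ i, (A k i : ℝ) * ∑ l, (a l : ℝ) * (b l i : ℝ)| ≤ ∑ i, |(A k i : ℝ) * ∑ l, (a l : ℝ) * (b l i : ℝ)| :=
            Finset.abs_sum_le_sum_abs _ _
        _ ≤ ∑ i, |(A k i : ℝ)| * H := by
            refine Finset.sum_le_sum fun i _ => ?_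
            rw [abs_mul]
            refine mul_le_mul_of_nonneg_left ?_ (abs_nonneg _)
            have := ha i
            unfold cm at this
            exact_mod_cast this
        _ = (∑ i, |(A k i : ℝ)|) * H := by rw [Finset.sum_mul]
        _ ≤ C' * H := mul_le_mul_of_nonneg_right (hC' k) (Nat.cast_nonneg _)
    exact_mod_cast h2
  refine ⟨P.totalDegree * (2 * C' + 1 : ℝ) ^ (s - 1), fun H hH => ?_⟩
  have hH1 : (1 : ℝ) ≤ H := by exact_mod_cast hH
  set S : Finset ℤ := Finset.Icc (-(C' * H : ℤ)) (C' * H) with hS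
  have hScard : S.card = 2 * (C' * H) + 1 := by
    rw [hS, Int.card_Icc]
    have : (C' * H : ℤ) + 1 - -(C' * H : ℤ) = ((2 * (C' * H) + 1 : ℕ) : ℤ) := by push_cast; ring
    rw [this, Int.toNat_natCast]
  set Z : Finset (Fin s → ℤ) := {f ∈ Fintype.piFinset fun _ => S | MvPolynomial.eval f P = 0} with hZ
  have hsub : {g : ι → ℤ | (∀ i, |g i| ≤ (H : ℤ)) ∧ g ∈ L ∧ MvPolynomial.eval g p = 0} ⊆ (Z.image (cm b) : Finset (ι → ℤ)) := by
    rintro g ⟨h1, h2, h3⟩
    obtain ⟨a, ha⟩ := (hb g).1 h2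
    have ha' : g = cm b a := ha
    subst ha'
    rw [Finset.mem_coe, Finset.mem_image]
    refine ⟨a, ?_, rfl⟩
    rw [hZ, Finset.mem_filter, Fintype.mem_piFinset]
    refine ⟨fun k => ?_, by rw [hP]; exact h3⟩
    rw [hS, Finset.mem_Icc]
    exact abs_le.mp (hcoord H a h1 k)
  have hle : {g : ι → ℤ | (∀ i, |g i| ≤ (H : ℤ)) ∧ g ∈ L ∧ MvPolynomial.eval g p = 0}.ncard ≤ Z.card := by
    refine (Set.ncard_le_ncard hsub (Finset.finite_toSet _)).trans ?_
    rw [Set.ncard_coe_finset]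
    exact Finset.card_image_le
  have hsz := MvPolynomial.schwartz_zippel_totalDegree hP0 S
  have hZle : (Z.card : ℝ) ≤ P.totalDegree * (2 * C' + 1 : ℝ) ^ (s - 1) * (H : ℝ) ^ (r - 1) := by
    have hSpos : (0 : ℚ≥0) < S.card := by
      rw [hScard]
      positivity
    rcases Nat.eq_zero_or_pos s with h0 | h0
    · have hdeg : P.totalDegree = 0 := by
        have hE : IsEmpty (Fin s) := by rw [h0]; exact Fin.isEmpty
        rw [MvPolynomial.eq_C_of_isEmpty P, MvPolynomial.totalDegree_C]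
      rw [hdeg] at hsz
      have : (Z.card : ℚ≥0) / (S.card : ℚ≥0) ^ s ≤ ((0 : ℕ) : ℚ≥0) / S.card := hsz
      rw [Nat.cast_zero, zero_div] at this
      have h5 : (Z.card : ℚ≥0) = 0 := by
        rw [div_le_iff₀ (by positivity), zero_mul] at this
        exact le_antisymm this (by positivity)
      have h6 : Z.card = 0 := by exact_mod_cast h5
      rw [h6]
      simp [hdeg]
    · have h5 : (Z.card : ℚ≥0) ≤ P.totalDegree * (S.card : ℚ≥0) ^ (s - 1) := by
        have h6 : (Z.card : ℚ≥0) / (S.card : ℚ≥0) ^ s ≤ P.totalDegree / S.card := hsz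
        rw [div_le_iff₀ (by positivity)] at h6
        refine h6.trans (le_of_eq ?_)
        have e : (S.card : ℚ≥0) ^ s = (S.card : ℚ≥0) ^ (s - 1) * S.card := by
          rw [← pow_succ]; congr 1; omega
        rw [e]
        field_simp
      have h7 : (Z.card : ℝ) ≤ P.totalDegree * (S.card : ℝ) ^ (s - 1) := by exact_mod_cast h5
      refine h7.trans ?_
      rw [mul_assoc]
      refine mul_le_mul_of_nonneg_left ?_ (Nat.cast_nonneg _)
      have h8 : (S.card : ℝ) ≤ (2 * C' + 1) * H := by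
        rw [hScard]
        push_cast
        nlinarith
      calc (S.card : ℝ) ^ (s - 1) ≤ ((2 * C' + 1) * H) ^ (s - 1) := pow_le_pow_left₀ (by positivity) h8 _
        _ = (2 * C' + 1 : ℝ) ^ (s - 1) * (H : ℝ) ^ (s - 1) := by rw [mul_pow]
        _ ≤ (2 * C' + 1 : ℝ) ^ (s - 1) * (H : ℝ) ^ (r - 1) := by
            refine mul_le_mul_of_nonneg_left ?_ (by positivity)
            exact pow_le_pow_right₀ hH1 (by omega)
  calc _ ≤ (Z.card : ℝ) := by exact_mod_cast hle
    _ ≤ _ := hZle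

end Pool.Agent.Q123.MPP
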