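import Pool.Agent.Q256.MP.Stm

/-!
# Project MP (helper256), job LOWG: the lower bound for the number of values, without a hypothesis on
the heights (after `Pool/Agent/W462/GE/Arch.lean`)
-/

set_option autoImplicit false
set_option linter.unusedSectionVars false

open Height NumberField

noncomputable section

namespace Pool.Agent.Q123.MPP

open Pool.Agent.W276.GE Pool.Agent.W462.GE Pool.Agent.Q256.MP

section core

variable {n d t H : ℕ}

theorem core (hI : S_ideal) (hn : 1 ≤ n) (hd : 1 ≤ d) (hdt : d ≤ t)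
    (F : Fin n → E n d → ℤ) (hF : ∀ i, F i ∈ box n d H) (hS : Spans F t)
    (K : Type) [Field K] [NumberField K] (p : Fin n → 𝓞 K) (hp : p ≠ 0) :
    ((H : ℝ) / (3 * (n * Fintype.card (E n (t - d))))) ^ (Module.finrank ℚ K) *
          mulHeight (fun k => (p k : K)) ^ d ≤
        (nv t (H + n * Fintype.card (E n (t - d)) * H) (fun k => (p k : K)) : ℝ) ^
          (Module.finrank ℚ K) * mulHeight (fun i => ev (F i) (fun k => (p k : K))) := by
  classical
  have : NeZero n := ⟨by omega⟩
  set P : Fin n → K := fun k => (p k : K) with hP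
  set q : Fin n → 𝓞 K := fun i => ev (F i) p with hq
  have hevq : ∀ i, ev (F i) P = (q i : K) := fun i =>
    (ev_map (algebraMap (𝓞 K) K) (F i) p).symm
  have hemb : ∀ (v : InfinitePlace K) (x : K), ‖v.embedding x‖ = v x := fun v x =>
    InfinitePlace.norm_embedding_eq v x
  have hq0 : ∃ i, (q i : K) ≠ 0 := by
    have : Nonempty (InfinitePlace K) := inferInstance
    obtain ⟨v⟩ := this
    have hx : (fun i => v.embedding (P i)) ≠ 0 := by
      intro h
      apply coe_ne hp
      funext i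
      have h1 := congrFun h i
      exact (map_eq_zero v.embedding).1 h1
    obtain ⟨i, hi⟩ := F_ne hd hdt hS hx
    refine ⟨i, fun h0 => hi ?_⟩
    rw [← ev_map v.embedding (F i) P, hevq, h0, map_zero]
  have hqne : q ≠ 0 := by
    rintro h
    obtain ⟨i, hi⟩ := hq0
    apply hi
    rw [h]
    rfl
  -- the two products
  set A : InfinitePlace K → ℝ := fun v => ⨆ i, v (p i : K) with hA
  set B : InfinitePlace K → ℝ := fun v => ⨆ i, v (q i : K) with hB
  have hAle : ∀ v i, v (p i : K) ≤ A v := fun v i =>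
    le_ciSup (f := fun i => v (p i : K)) (Set.finite_range _).bddAbove i
  have hBle : ∀ v i, v (q i : K) ≤ B v := fun v i =>
    le_ciSup (f := fun i => v (q i : K)) (Set.finite_range _).bddAbove i
  have hApos : ∀ v, 0 < A v := by
    intro v
    obtain ⟨i, hi⟩ := Function.ne_iff.1 (coe_ne hp)
    exact lt_of_lt_of_le (v.pos_iff.2 hi) (hAle v i)
  have hBpos : ∀ v, 0 < B v := by
    intro v
    obtain ⟨i, hi⟩ := hq0
    exact lt_of_lt_of_le (v.pos_iff.2 hi) (hBle v i)
  obtain ⟨v₀, -, hv₀⟩ := Finset.exists_min_image (Finset.univ : Finset (InfinitePlace K))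
    (fun v => B v / A v ^ d) Finset.univ_nonempty
  set τ : ℝ := B v₀ / A v₀ ^ d with hτ
  have hτ0 : 0 < τ := div_pos (hBpos _) (pow_pos (hApos _) _)
  have hBτ : ∀ v, τ * A v ^ d ≤ B v := by
    intro v
    have h1 := hv₀ v (Finset.mem_univ _)
    rwa [le_div_iff₀ (pow_pos (hApos _) _)] at h1
  have hB0 : B v₀ = τ * A v₀ ^ d := by
    rw [hτ, div_mul_cancel₀ _ (pow_pos (hApos _) _).ne']
  set e := Module.finrank ℚ K with he
  set Na : ℝ := (Ideal.absNorm (Ideal.span (Set.range p)) : ℝ) with hNa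
  set Nb : ℝ := (Ideal.absNorm (Ideal.span (Set.range q)) : ℝ) with hNb
  have hXN : mulHeight P * Na = ∏ v, A v ^ v.mult := HN hp
  have hYN : mulHeight (fun i => (q i : K)) * Nb = ∏ v, B v ^ v.mult := HN hqne
  set Y : ℝ := mulHeight (fun i => (q i : K)) with hY
  have hYev : mulHeight (fun i => ev (F i) P) = Y := by
    have : (fun i => ev (F i) P) = fun i => (q i : K) := funext hevq
    rw [this]
  have hY0 : 0 ≤ Y := (zero_le_one).trans (one_le_mulHeight _)
  have hX1 : 1 ≤ mulHeight P := one_le_mulHeight P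
  have hX0 : 0 < mulHeight P := by linarith
  have hPA : 0 < ∏ v, A v ^ v.mult := Finset.prod_pos fun v _ => pow_pos (hApos v) _
  have hNa0 : 0 < Na := by
    by_contra hcon
    have h1 : Na = 0 := le_antisymm (not_lt.1 hcon) (Nat.cast_nonneg _)
    rw [h1, mul_zero] at hXN
    exact hPA.ne hXN
  have hNb0 : 0 ≤ Nb := Nat.cast_nonneg _
  have hstar : mulHeight P ^ d * τ ^ e * Na ^ d ≤ Y * Nb := by
    have h1 : τ ^ e * (∏ v, A v ^ v.mult) ^ d ≤ ∏ v, B v ^ v.mult := by
      rw [he, ← InfinitePlace.sum_mult_eq, ← Finset.prod_pow_eq_pow_sum, ← Finset.prod_pow,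
        ← Finset.prod_mul_distrib]
      refine Finset.prod_le_prod (fun v _ => ?_) fun v _ => ?_
      · have := hApos v; positivity
      · rw [← pow_mul, mul_comm v.mult d, pow_mul, ← mul_pow]
        have := hApos v
        exact pow_le_pow_left₀ (by positivity) (hBτ v) _
    calc mulHeight P ^ d * τ ^ e * Na ^ d = τ ^ e * (mulHeight P * Na) ^ d := by ring
      _ = τ ^ e * (∏ v, A v ^ v.mult) ^ d := by rw [hXN]
      _ ≤ ∏ v, B v ^ v.mult := h1
      _ = Y * Nb := hYN.symm
  -- the cells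
  set m : ℝ := n * Fintype.card (E n (t - d)) with hm
  have hm0 : 0 < m := by
    rw [hm]
    have h1 : 0 < Fintype.card (E n (t - d)) := Fintype.card_pos
    have h2 : 0 < n := hn
    positivity
  obtain ⟨i₀, hi₀⟩ := exists_eq_ciSup_of_finite (f := fun i => v₀ (p i : K))
  set x : Fin n → ℂ := fun i => v₀.embedding (P i) with hx
  have hxA : ∀ i, ‖x i‖ ≤ A v₀ := fun i => by
    rw [hx]; simp only; rw [hemb]; exact hAle v₀ i
  have hxi : ‖x i₀‖ = A v₀ := by
    rw [hx]; simp only; rw [hemb]; exact hi₀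
  have hxF : ∀ j, ‖ev (F j) x‖ ≤ τ * A v₀ ^ d := by
    intro j
    rw [← hB0, hx, ← ev_map v₀.embedding (F j) P, hevq, hemb]
    exact hBle v₀ j
  set w : ℕ → E n t → ℝ := fun j => wi i₀ (3 * m * τ * j) with hw
  set S : ℕ → Set (𝓞 K) := fun j => (fun G : E n t → ℤ => ev G p) '' Cell F (w j) with hSdef
  have hAt : 0 < A v₀ ^ t := pow_pos (hApos _) _
  have hval : ∀ j, ∀ z ∈ S j, ‖v₀.embedding (z : K) - ((3 * m * τ * j : ℝ) : ℂ) * x i₀ ^ t‖ ≤
      m * τ * A v₀ ^ t := by
    rintro j z ⟨G, ⟨θ, hθ, hG⟩, rfl⟩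
    have h1 : v₀.embedding ((ev G p : 𝓞 K) : K) = evR (fun α => (G α : ℝ)) x := by
      rw [evR_int, hx, ← ev_map v₀.embedding G P]
      congr 1
      exact ev_map (algebraMap (𝓞 K) K) G p
    simp only
    rw [h1, evR_comb hdt F _ (w j) θ hG x, hw, evR_wi, add_sub_cancel_left]
    exact tail_le hdt F θ hθ x (A v₀) τ (hApos _).le hτ0.le hxA hxF
  have hdisj : ∀ j j', j ≠ j' → Disjoint (S j) (S j') := by
    intro j j' hjj
    rw [Set.disjoint_left]
    intro z hz hz'
    have h1 := hval j z hz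
    have h2 := hval j' z hz'
    set c : ℂ := x i₀ ^ t
    have hc : ‖c‖ = A v₀ ^ t := by
      show ‖x i₀ ^ t‖ = _
      rw [norm_pow, hxi]
    have h3 : ‖(((3 * m * τ * j : ℝ) : ℂ) - ((3 * m * τ * j' : ℝ) : ℂ)) * c‖ ≤
        m * τ * A v₀ ^ t + m * τ * A v₀ ^ t := by
      have e : (((3 * m * τ * j : ℝ) : ℂ) - ((3 * m * τ * j' : ℝ) : ℂ)) * c =
          (v₀.embedding (z : K) - ((3 * m * τ * j' : ℝ) : ℂ) * c) -
          (v₀.embedding (z : K) - ((3 * m * τ * j : ℝ) : ℂ) * c) := by ring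
      rw [e]
      exact (norm_sub_le _ _).trans (add_le_add h2 h1)
    rw [norm_mul, hc, ← Complex.ofReal_sub, Complex.norm_real, Real.norm_eq_abs,
      ← mul_sub, abs_mul, abs_of_pos (by positivity)] at h3
    have h4 : (1 : ℝ) ≤ |(j : ℝ) - j'| := by
      have h5 : ((j : ℤ) - j') ≠ 0 := by omega
      have h6 : (1 : ℤ) ≤ |(j : ℤ) - j'| := Int.one_le_abs h5
      exact_mod_cast h6
    have h7 : 3 * m * τ * 1 * A v₀ ^ t ≤ 3 * m * τ * |(j : ℝ) - j'| * A v₀ ^ t := by
      gcongr
    have h8 : 0 < m * τ * A v₀ ^ t := by positivity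
    nlinarith
  set J : ℕ := ⌊(H : ℝ) / (3 * m * τ)⌋₊ with hJ
  have hJle : (J : ℝ) ≤ (H : ℝ) / (3 * m * τ) := Nat.floor_le (by positivity)
  have hJlt : (H : ℝ) / (3 * m * τ) < J + 1 := Nat.lt_floor_add_one _
  set T := H + n * Fintype.card (E n (t - d)) * H with hT
  set V : Set K := (fun g : E n t → ℤ => ev g P) '' (box n t T : Set (E n t → ℤ)) with hV
  have hVfin : V.Finite := (Finset.finite_toSet _).image _
  have hSV : ∀ j, j ≤ J → ∀ z ∈ S j, (z : K) ∈ V := by
    rintro j hj z ⟨G, hG, rfl⟩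
    refine ⟨G, ?_, (ev_map (algebraMap (𝓞 K) K) G p).symm⟩
    refine cell_box hF (fun α => ?_) hG
    rw [hw]
    unfold wi
    simp only
    split_ifs
    · rw [abs_of_nonneg (by positivity)]
      have h1 : (j : ℝ) ≤ (H : ℝ) / (3 * m * τ) := le_trans (by exact_mod_cast hj) hJle
      rw [le_div_iff₀ (by positivity)] at h1
      linarith
    · rw [abs_zero]; exact Nat.cast_nonneg _
  have hinj : Function.Injective (fun z : 𝓞 K => (z : K)) := fun a b h => RingOfIntegers.ext h
  have hSfin : ∀ j, j ≤ J → (S j).Finite := by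
    intro j hj
    refine Set.Finite.of_finite_image (hVfin.subset ?_) (f := fun z : 𝓞 K => (z : K))
      hinj.injOn
    rintro _ ⟨z, hz, rfl⟩
    exact hSV j hj z hz
  -- counting
  obtain ⟨j₀, hj₀, hmin⟩ := Finset.exists_min_image (Finset.range (J + 1)) (fun j => (S j).ncard)
    ⟨0, by simp⟩
  rw [Finset.mem_range] at hj₀
  have hcount : (J + 1) * (S j₀).ncard ≤ V.ncard := by
    let Sf : ℕ → Finset (𝓞 K) := fun j => if h : j ≤ J then (hSfin j h).toFinset else ∅
    have hSf : ∀ j ≤ J, ∀ z, z ∈ Sf j ↔ z ∈ S j := by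
      intro j hj z
      simp only [Sf, dif_pos hj, Set.Finite.mem_toFinset]
    have hcard : ∀ j ≤ J, (Sf j).card = (S j).ncard := by
      intro j hj
      simp only [Sf, dif_pos hj]
      exact (Set.ncard_eq_toFinset_card _ _).symm
    have h1 : ((Finset.range (J + 1)).biUnion Sf).card = ∑ j ∈ Finset.range (J + 1), (Sf j).card := by
      refine Finset.card_biUnion fun j hj j' hj' hne => ?_
      rw [Function.onFun, Finset.disjoint_left]
      intro z hz hz'
      rw [Finset.mem_coe, Finset.mem_range] at hj hj'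
      exact Set.disjoint_left.1 (hdisj j j' hne) ((hSf j (by omega) z).1 hz)
        ((hSf j' (by omega) z).1 hz')
    have h2 : (J + 1) * (S j₀).ncard ≤ ∑ j ∈ Finset.range (J + 1), (Sf j).card := by
      calc (J + 1) * (S j₀).ncard = ∑ j ∈ Finset.range (J + 1), (S j₀).ncard := by simp
        _ ≤ _ := by
          refine Finset.sum_le_sum fun j hj => ?_
          rw [hcard j (by rw [Finset.mem_range] at hj; omega)]
          exact hmin j hj
    rw [← h1] at h2
    refine h2.trans ?_
    rw [Set.ncard_eq_toFinset_card V hVfin]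
    refine Finset.card_le_card_of_injOn (fun z : 𝓞 K => (z : K)) ?_ hinj.injOn
    intro z hz
    rw [Finset.mem_coe, Finset.mem_biUnion] at hz
    obtain ⟨j, hj, hz⟩ := hz
    rw [Finset.mem_range] at hj
    rw [Finset.mem_coe, Set.Finite.mem_toFinset]
    exact hSV j (by omega) z ((hSf j (by omega) z).1 hz)
  have hid := hI n d t hdt F hS K p hp (w j₀)
  change Nb ≤ Na ^ d * ((S j₀).ncard : ℝ) ^ e at hid
  have h1 : mulHeight P ^ d * τ ^ e ≤ ((S j₀).ncard : ℝ) ^ e * Y := by
    have h2 := hstar.trans (mul_le_mul_of_nonneg_left hid hY0)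
    have h3 : (mulHeight P ^ d * τ ^ e) * Na ^ d ≤ (((S j₀).ncard : ℝ) ^ e * Y) * Na ^ d := by
      linarith
    exact le_of_mul_le_mul_right h3 (by positivity)
  have h2 : (((J + 1 : ℕ) : ℝ) * (S j₀).ncard) ≤ V.ncard := by exact_mod_cast hcount
  have h3 : ((H : ℝ) / (3 * m)) ^ e * mulHeight P ^ d ≤
      (((J + 1 : ℕ) : ℝ) * (S j₀).ncard) ^ e * Y := by
    have h4 : (H : ℝ) / (3 * m) = (H : ℝ) / (3 * m * τ) * τ := by field_simp
    rw [h4, mul_pow, mul_pow]
    have h5 : ((H : ℝ) / (3 * m * τ)) ^ e ≤ ((J + 1 : ℕ) : ℝ) ^ e := by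
      refine pow_le_pow_left₀ (by positivity) ?_ _
      push_cast
      exact hJlt.le
    calc ((H : ℝ) / (3 * m * τ)) ^ e * τ ^ e * mulHeight P ^ d =
        ((H : ℝ) / (3 * m * τ)) ^ e * (mulHeight P ^ d * τ ^ e) := by ring
      _ ≤ ((J + 1 : ℕ) : ℝ) ^ e * (((S j₀).ncard : ℝ) ^ e * Y) :=
          mul_le_mul h5 h1 (by positivity) (by positivity)
      _ = _ := by ring
  have h6 : (nv t T P : ℝ) = (V.ncard : ℝ) := rfl
  rw [hYev, h6]
  refine h3.trans ?_
  exact mul_le_mul_of_nonneg_right (pow_le_pow_left₀ (by positivity) h2 _) hY0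

end core

theorem lowg : S_lowg := by
  intro n d t H hn hd hdt _ F hF hS K _ _ P hP
  have hI := Pool.Agent.W108.GE.ideal
  obtain ⟨b, hb⟩ := IsLocalization.exist_integer_multiples_of_finite (nonZeroDivisors (𝓞 K)) P
  choose p hp using hb
  set c : K := ((b : 𝓞 K) : K) with hc
  have hc0 : c ≠ 0 := by
    intro h0
    have h1 : (b : 𝓞 K) = 0 := RingOfIntegers.ext h0
    exact nonZeroDivisors.coe_ne_zero b h1
  have hpP : (fun k => (p k : K)) = fun k => c * P k := by
    funext k
    have h1 := hp k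
    rw [Algebra.smul_def] at h1
    exact h1
  have hp0 : p ≠ 0 := by
    intro h0
    apply hP
    funext k
    have h1 := congrFun hpP k
    rw [h0] at h1
    have h2 : ((0 : 𝓞 K) : K) = 0 := map_zero (algebraMap (𝓞 K) K)
    have h3 : c * P k = 0 := by rw [← h1]; exact h2
    rcases mul_eq_zero.1 h3 with h4 | h4
    · exact absurd h4 hc0
    · exact h4
  have hh : mulHeight (fun k => (p k : K)) = mulHeight P := by
    rw [hpP]
    exact mulHeight_smul_eq_mulHeight P hc0
  have hh2 : mulHeight (fun i => ev (F i) (fun k => (p k : K))) = mulHeight (fun i => ev (F i) P) := by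
    rw [hpP]
    have h1 : (fun i => ev (F i) (fun k => c * P k)) = c ^ d • fun i => ev (F i) P := by
      funext i
      rw [ev_smul]
      rfl
    rw [h1]
    exact mulHeight_smul_eq_mulHeight _ (pow_ne_zero d hc0)
  have hnv : nv t (H + n * Fintype.card (E n (t - d)) * H) (fun k => (p k : K)) =
      nv t (H + n * Fintype.card (E n (t - d)) * H) P := by
    unfold nv
    rw [hpP]
    have h1 : (fun g : E n t → ℤ => ev g (fun k => c * P k)) =
        (fun z : K => c ^ t * z) ∘ fun g : E n t → ℤ => ev g P := by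
      funext g
      exact ev_smul c g P
    rw [h1, Set.image_comp]
    exact Set.ncard_image_of_injective _ (mul_right_injective₀ (pow_ne_zero t hc0))
  have := core hI hn hd hdt F hF hS K p hp0
  rw [hh, hnv, hh2] at this
  exact this

end Pool.Agent.Q123.MPP
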