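import Pool.Agent.Q256.MP.Stm

/-!
# Project MP (helper256), job NZS: the number of forms vanishing at a point whose image has small height
(after `Pool/Agent/W276/GE/Bound.lean`)
-/

set_option autoImplicit false

open Height NumberField

noncomputable section

namespace Pool.Agent.Q123.MPP

open Pool.Agent.W276.GE Pool.Agent.Q256.MP

/-- **JOB NZS** -/
theorem nzs (hlow : S_lowg) : S_nzs := by
  intro N D B s hN hD
  have hspan : S_span := Pool.Agent.W405.GE.span_of_mac (Pool.Agent.W216.GE.mac Pool.Agent.W85.GE.perm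
    Pool.Agent.W333.GELin.lin Pool.Agent.W366.GE.hyp)
  have hcov : S_cov := Pool.Agent.W216.GE.cov
  have hpack : S_pack := Pool.Agent.W613.GEPack.pack Pool.Agent.W347.GE.root Pool.Agent.W135.GE.prod
  obtain ⟨k₀, hk₀⟩ := hcov N
  set k := k₀ + 1 with hk
  refine ⟨max (N + 1) (max (2 * D * N * B) ((B + 1) * k * D + s + 1)), fun d hd => ?_⟩
  have hd1 : N + 1 ≤ d := le_trans (le_max_left _ _) hd
  have hd2 : 2 * D * N * B ≤ d := le_trans (le_trans (le_max_left _ _) (le_max_right _ _)) hd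
  have hd3 : (B + 1) * k * D + s + 1 ≤ d :=
    le_trans (le_trans (le_max_right _ _) (le_max_right _ _)) hd
  obtain ⟨C₁, hC₁, hp⟩ := hpack N D d hN hD (by omega)
  set t := (N + 1) * (d - 1) + 1 with ht
  have hdt : d ≤ t := by
    have : (d - 1) ≤ (N + 1) * (d - 1) := Nat.le_mul_of_pos_left _ (by omega)
    omega
  set m : ℕ := (N + 1) * Fintype.card (E (N + 1) (t - d)) with hm
  have hm1 : 1 ≤ m := Nat.mul_pos (by omega) (card_E_pos _ _ (by omega))
  show ∃ C : ℝ, 0 < C ∧ ∀ H : ℕ, 1 ≤ H →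
    ∀ F ∈ Fb (N + 1) d H, NoZero F → ∀ (K : Type) [Field K] [NumberField K],
    Module.finrank ℚ K ≤ D → ∀ P : Fin (N + 1) → K, P ≠ 0 →
    mulHeight (fm F K P) ≤ mulHeight P ^ s →
    (nz d (2 * H) P : ℝ) * mulHeight P ^ B ≤ C * (H : ℝ) ^ (Fintype.card (E (N + 1) d) - 1)
  set M := Fintype.card (E (N + 1) d) with hM
  have hM1 : 1 ≤ M := card_E_pos _ _ (by omega)
  refine ⟨max C₁ ((2 * m + 7 : ℝ) ^ M * (3 * m)), lt_max_of_lt_left hC₁, ?_⟩
  intro H hH F hF hnz K _ _ hK P hP hle
  have hX1 : 1 ≤ mulHeight P := one_le_mulHeight P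
  set X := mulHeight P with hX
  have hH1 : (1 : ℝ) ≤ H := by exact_mod_cast hH
  rcases le_or_gt X ((H : ℝ) ^ (2 * D * N)) with hc | hc
  · -- small heights
    have h1 := hp K hK P hP H hH hc
    have h2 : X ^ B ≤ X ^ ((d : ℝ) / (2 * D * N)) := by
      rw [← Real.rpow_natCast]
      refine Real.rpow_le_rpow_of_exponent_le hX1 ?_
      rw [le_div_iff₀ (by positivity)]
      have : (B * (2 * D * N) : ℝ) = ((2 * D * N * B : ℕ) : ℝ) := by push_cast; ring
      rw [this]
      exact_mod_cast hd2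
    calc (nz d (2 * H) P : ℝ) * X ^ B ≤ (nz d (2 * H) P : ℝ) * X ^ ((d : ℝ) / (2 * D * N)) := by
          gcongr
      _ ≤ C₁ * (H : ℝ) ^ (M - 1) := h1
      _ ≤ _ := by gcongr; exact le_max_left _ _
  · -- large heights
    have he : 1 ≤ Module.finrank ℚ K := Module.finrank_pos
    set e := Module.finrank ℚ K with hedef
    have hHX : (H : ℝ) ≤ X := by
      refine le_trans ?_ hc.le
      calc (H : ℝ) = (H : ℝ) ^ 1 := (pow_one _).symm
        _ ≤ (H : ℝ) ^ (2 * D * N) := by
          refine pow_le_pow_right₀ hH1 ?_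
          have : 1 ≤ D * N := Nat.mul_pos hD hN
          nlinarith
    have hsp : Spans F t := hspan (N + 1) d (by omega) (by omega) F hnz t le_rfl
    have h1 := hlow (N + 1) d t H (by omega) (by omega) hdt hH F (mem_Fb.mp hF) hsp K P hP
    rw [← hedef, ← hX] at h1
    let φ : K →+* ℂ := Classical.arbitrary _
    set T := H + (N + 1) * Fintype.card (E (N + 1) (t - d)) * H with hT
    have h2 : nv t T P ≤ nv d T P ^ k := by
      have h3 := hk₀ d hd1 T (fun i => φ (P i))
      rw [nv_map φ P, nv_map φ P] at h3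
      exact h3.trans (Nat.pow_le_pow_right (one_le_nv d T P) (by omega))
    have h4 := nz_mul_nv d (2 * H) T P
    set a : ℝ := (nz d (2 * H) P : ℝ) with ha
    set b : ℝ := (nv d T P : ℝ) with hb
    have ha0 : 0 ≤ a := Nat.cast_nonneg _
    have hb0 : 0 ≤ b := Nat.cast_nonneg _
    have h4' : a * b ≤ ((2 * m + 7) * H) ^ M := by
      have h5 : (a * b : ℝ) ≤ ((2 * (T + 2 * H) + 1 : ℕ) : ℝ) ^ M := by
        rw [ha, hb]
        exact_mod_cast h4
      refine h5.trans ?_
      gcongr
      have : ((2 * (T + 2 * H) + 1 : ℕ) : ℝ) = 2 * m * H + 6 * H + 1 := by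
        rw [hT, ← hm]; push_cast; ring
      rw [this]
      nlinarith
    have h2' : ((nv t T P : ℕ) : ℝ) ^ e ≤ (b ^ k) ^ e := by
      gcongr
      rw [hb]
      exact_mod_cast h2
    have hm0 : (1 : ℝ) ≤ m := by exact_mod_cast hm1
    -- lower bound
    have h6 : X ^ (d - s + 1 - 1) ≤ (b ^ k) ^ e * (3 * m) ^ e := by
      rw [Nat.add_sub_cancel]
      have h7 : ((H : ℝ) / (3 * m)) ^ e * X ^ (d - s) ≤ (b ^ k) ^ e := by
        refine le_trans ?_ h2'
        have : ((H : ℝ) / (3 * m)) = ((H : ℝ) / (3 * (((N + 1 : ℕ) : ℝ) *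
            (Fintype.card (E (N + 1) (t - d)) : ℝ)))) := by
          rw [hm]; push_cast; ring
        rw [this]
        have hXs : 0 < X ^ s := by positivity
        have h12 := h1.trans (mul_le_mul_of_nonneg_left hle (by positivity))
        have hds : X ^ d = X ^ (d - s) * X ^ s := by
          rw [← pow_add]; congr 1; omega
        rw [hds, ← mul_assoc] at h12
        exact le_of_mul_le_mul_right h12 hXs
      calc X ^ (d - s) = ((1 : ℝ) / (3 * m)) ^ e * X ^ (d - s) * (3 * m) ^ e := by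
            rw [mul_right_comm, ← mul_pow, one_div, inv_mul_cancel₀ (by positivity), one_pow,
              one_mul]
        _ ≤ ((H : ℝ) / (3 * m)) ^ e * X ^ (d - s) * (3 * m) ^ e := by gcongr
        _ ≤ (b ^ k) ^ e * (3 * m) ^ e := by gcongr
    have hke : (B + 1) * (k * e) ≤ (d - s + 1) - 1 := by
      have : (B + 1) * (k * e) ≤ (B + 1) * k * D := by
        rw [mul_assoc]
        exact Nat.mul_le_mul_left _ (Nat.mul_le_mul_left _ hK)
      omega
    have h11 := real_core ha0 hb0 hX1 hH1 hHX hm0 (by omega : 1 ≤ k) he hke hM1 h4' h6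
    exact h11.trans (by gcongr; exact le_max_right _ _)

end Pool.Agent.Q123.MPP
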