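import Pool.Agent.Q256.MP.Stm

/-!
# Project MP (helper256), job TAIL: the number of systems with a point of large height whose image has
small height (after `Pool/Agent/W276/GE/Union.lean`, `Main.lean`)
-/

set_option autoImplicit false
set_option linter.unusedSectionVars false

open Height NumberField

noncomputable section

namespace Pool.Agent.Q123.MPP

open Pool.Agent.W276.GE Pool.Agent.Q256.MP

/-- The same as `Tl` with the height of the point between `2^κ` and `2^(κ+1)`. -/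
def TlAt {N d : ℕ} (D s κ : ℕ) (F : Sy N d) : Prop :=
  ∃ (K : Type) (_ : Field K) (_ : NumberField K), Module.finrank ℚ K ≤ D ∧
    ∃ P : Fin (N + 1) → K, P ≠ 0 ∧ mulHeight (fm F K P) ≤ mulHeight P ^ s ∧
      (2 : ℝ) ^ κ ≤ mulHeight P ∧ mulHeight P ≤ 2 ^ (κ + 1)

theorem exists_at {N d D s κ : ℕ} {F : Sy N d} (h : Tl D s κ F) : ∃ l, κ ≤ l ∧ TlAt D s l F := by
  obtain ⟨K, i1, i2, hK, P, hP, hle, hκ⟩ := h
  have h1 : 1 ≤ mulHeight P := one_le_mulHeight P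
  obtain ⟨l, h2, h3⟩ := exists_nat_pow_near h1 (by norm_num : (1 : ℝ) < 2)
  refine ⟨l, ?_, K, i1, i2, hK, P, hP, hle, h2, h3.le⟩
  have h4 : (2 : ℝ) ^ κ < 2 ^ (l + 1) := lt_of_le_of_lt hκ h3
  have h5 := (pow_lt_pow_iff_right₀ (by norm_num : (1 : ℝ) < 2)).1 h4
  omega

theorem tlAt_count {N D d l H c B s a : ℕ} {C₁ C₂ : ℝ} (hC₁ : 0 < C₁) (hH : 1 ≤ H) (hN : 1 ≤ N)
    (hs : 1 ≤ s) (hB : B = 2 * c * s * (N + 1) + (a + 1))
    (hnz : ∀ F ∈ Fb (N + 1) d H, NoZero F → ∀ (K : Type) [Field K] [NumberField K],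
      Module.finrank ℚ K ≤ D → ∀ P : Fin (N + 1) → K, P ≠ 0 →
      mulHeight (fm F K P) ≤ mulHeight P ^ s →
      (nz d (2 * H) P : ℝ) * mulHeight P ^ B ≤ C₁ * (H : ℝ) ^ (Fintype.card (E (N + 1) d) - 1))
    {A : Finset ℂ} (hA1 : (A.card : ℝ) ≤ C₂ * ((2 ^ (l + 1)) ^ s) ^ c)
    (hA : ∀ (K : Type) [Field K] [NumberField K], Module.finrank ℚ K ≤ D →
      ∀ x : K, mulHeight₁ x ≤ (2 ^ (l + 1)) ^ s → ∀ φ : K →+* ℂ, φ x ∈ A) :
    (({F | F ∈ Fb (N + 1) d H ∧ NoZero F ∧ TlAt D s l F} :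
      Set (Sy N d)).ncard : ℝ) ≤
      ((C₂ * (2 ^ s) ^ c) ^ (2 * (N + 1)) * 3 ^ Fintype.card (E (N + 1) d) * C₁ ^ N) *
        (H : ℝ) ^ ((N + 1) * Fintype.card (E (N + 1) d) - N) * (1 / 2) ^ ((a + 1) * l) := by
  classical
  set M := Fintype.card (E (N + 1) d) with hM
  have hM1 : 1 ≤ M := card_E_pos _ _ (by omega)
  have hH1 : (1 : ℝ) ≤ H := by exact_mod_cast hH
  let Pt : Finset (Fin (N + 1) → ℂ) := Fintype.piFinset fun _ => A
  let R : ℝ := C₁ * (H : ℝ) ^ (M - 1) / (2 ^ l) ^ B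
  have hR0 : 0 ≤ R := by positivity
  let Pr : Finset ((Fin (N + 1) → ℂ) × (Fin (N + 1) → ℂ)) :=
    (Pt ×ˢ Pt).filter fun pq => pq.2 ≠ 0 ∧ (nz d (2 * H) pq.1 : ℝ) ≤ R
  let S : (Fin (N + 1) → ℂ) × (Fin (N + 1) → ℂ) → Finset (Sy N d) :=
    fun pq => (Fb (N + 1) d H).filter fun F => ∃ c : ℂ, ∀ i, ev (F i) pq.1 = c * pq.2 i
  have hS : ∀ pq ∈ Pr, ((S pq).card : ℝ) ≤ (3 * H : ℝ) ^ M * R ^ N := by
    rintro ⟨p, q⟩ hpq
    rw [Finset.mem_filter] at hpq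
    have h1 := fibre_le d H p q hpq.2.1
    have h2 : ((S (p, q) : Finset _) : Set (Sy N d)) =
        {F | F ∈ Fb (N + 1) d H ∧ ∃ c : ℂ, ∀ i, ev (F i) p = c * q i} := by
      ext F
      simp [S]
    rw [← h2, Set.ncard_coe_finset] at h1
    have h3 : ((S (p, q)).card : ℝ) ≤ (2 * H + 1 : ℝ) ^ M * (nz d (2 * H) p : ℝ) ^ N := by
      exact_mod_cast h1
    refine h3.trans ?_
    have h4 := hpq.2.2
    gcongr
    linarith
  have hsub : {F | F ∈ Fb (N + 1) d H ∧ NoZero F ∧ TlAt D s l F} ⊆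
      ((Pr.biUnion S : Finset _) : Set (Sy N d)) := by
    rintro F ⟨hF, hF0, K, i1, i2, hK, P, hP, hle, hX1, hX2⟩
    let φ : K →+* ℂ := Classical.arbitrary _
    have hX3 : mulHeight P ^ s ≤ (2 ^ (l + 1)) ^ s :=
      pow_le_pow_left₀ ((zero_le_one).trans (one_le_mulHeight P)) hX2 s
    have hX4 : mulHeight P ≤ (2 ^ (l + 1)) ^ s := by
      refine hX2.trans ?_
      exact le_self_pow₀ (one_le_pow₀ (by norm_num)) (by omega)
    obtain ⟨a', ha, hap⟩ := exists_norm φ (fun x hx => hA K hK x hx φ) P hP hX4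
    have hQ := image_ne_zero hF0 φ hP
    obtain ⟨b, hb, hbq⟩ := exists_norm φ (fun x hx => hA K hK x hx φ)
      (fun i => ev (F i) P) hQ (hle.trans hX3)
    rw [Finset.mem_coe, Finset.mem_biUnion]
    refine ⟨(fun i => φ (a' * P i), fun i => φ (b * ev (F i) P)), ?_, ?_⟩
    · rw [Finset.mem_filter]
      refine ⟨?_, ?_, ?_⟩
      · rw [Finset.mem_product]
        exact ⟨Fintype.mem_piFinset.2 hap, Fintype.mem_piFinset.2 hbq⟩
      · intro h
        apply hQ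
        funext i
        have h1 := congrFun h i
        simp only [Pi.zero_apply, map_eq_zero, mul_eq_zero, hb, false_or] at h1
        exact h1
      · simp only
        rw [nz_map φ (fun i => a' * P i), nz_smul a' ha P, le_div_iff₀ (by positivity)]
        refine le_trans ?_ (hnz F hF hF0 K hK P hP hle)
        gcongr
    · rw [Finset.mem_filter]
      refine ⟨hF, φ (a' ^ d * b⁻¹), fun i => ?_⟩
      simp only
      rw [← ev_map φ (F i) (fun i => a' * P i), ev_smul, ← map_mul]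
      congr 1
      field_simp
  have hcardPr : (Pr.card : ℝ) ≤ (C₂ * ((2 ^ (l + 1)) ^ s) ^ c) ^ (2 * (N + 1)) := by
    have h1 : Pr.card ≤ A.card ^ (2 * (N + 1)) := by
      refine (Finset.card_filter_le _ _).trans ?_
      rw [Finset.card_product, Fintype.card_piFinset]
      simp only [Finset.prod_const, Finset.card_univ, Fintype.card_fin]
      rw [← pow_add]
      exact le_of_eq (by congr 1; omega)
    calc (Pr.card : ℝ) ≤ ((A.card ^ (2 * (N + 1)) : ℕ) : ℝ) := by exact_mod_cast h1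
      _ = (A.card : ℝ) ^ (2 * (N + 1)) := by push_cast; rfl
      _ ≤ _ := by gcongr
  calc (({F | F ∈ Fb (N + 1) d H ∧ NoZero F ∧ TlAt D s l F} :
      Set (Sy N d)).ncard : ℝ)
      ≤ ((Pr.biUnion S).card : ℝ) := by
        have := Set.ncard_le_ncard hsub (Finset.finite_toSet _)
        rw [Set.ncard_coe_finset] at this
        exact_mod_cast this
    _ ≤ ∑ pq ∈ Pr, ((S pq).card : ℝ) := by
        exact_mod_cast Finset.card_biUnion_le
    _ ≤ ∑ _pq ∈ Pr, (3 * H : ℝ) ^ M * R ^ N := Finset.sum_le_sum hS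
    _ = Pr.card * ((3 * H : ℝ) ^ M * R ^ N) := by rw [Finset.sum_const, nsmul_eq_mul]
    _ ≤ (C₂ * ((2 ^ (l + 1)) ^ s) ^ c) ^ (2 * (N + 1)) * ((3 * H : ℝ) ^ M * R ^ N) := by gcongr
    _ ≤ _ := by
        have hu : (1 : ℝ) ≤ 2 ^ l := one_le_pow₀ (by norm_num)
        set u : ℝ := 2 ^ l with hudef
        have hu0 : 0 < u := by linarith
        have e1 : C₂ * ((2 ^ (l + 1)) ^ s) ^ c = (C₂ * (2 ^ s) ^ c) * u ^ (s * c) := by
          have e0 : (2 : ℝ) ^ (l + 1) = u * 2 := by rw [hudef, pow_succ]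
          rw [e0, mul_pow, mul_pow, ← pow_mul u]
          ring
        have e2 : (H : ℝ) ^ ((N + 1) * M - N) = (H : ℝ) ^ M * ((H : ℝ) ^ (M - 1)) ^ N := by
          rw [← pow_mul, ← pow_add]
          congr 1
          obtain ⟨M', hM'⟩ : ∃ M', M = M' + 1 := ⟨M - 1, by omega⟩
          rw [hM', Nat.add_sub_cancel]
          have : (N + 1) * (M' + 1) = (M' + 1) + M' * N + N := by ring
          omega
        have e3 : (1 / 2 : ℝ) ^ ((a + 1) * l) = 1 / u ^ (a + 1) := by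
          rw [one_div_pow, hudef, ← pow_mul, mul_comm (a + 1) l]
        have e4 : (C₂ * ((2 ^ (l + 1)) ^ s) ^ c) ^ (2 * (N + 1)) * ((3 * H : ℝ) ^ M * R ^ N) =
            ((C₂ * (2 ^ s) ^ c) ^ (2 * (N + 1)) * 3 ^ M * C₁ ^ N) * (H : ℝ) ^ ((N + 1) * M - N) *
              (u ^ (s * c * (2 * (N + 1))) / u ^ (B * N)) := by
          have eR : R ^ N = C₁ ^ N * ((H : ℝ) ^ (M - 1)) ^ N / u ^ (B * N) := by
            simp only [R]
            rw [← hudef, div_pow, mul_pow, pow_mul u]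
          rw [e1, e2, eR, mul_pow (C₂ * (2 ^ s) ^ c) (u ^ (s * c)), ← pow_mul u,
            mul_pow (3 : ℝ) (H : ℝ)]
          ring
        rw [e4, e3]
        have h5 : u ^ (s * c * (2 * (N + 1))) / u ^ (B * N) ≤ 1 / u ^ (a + 1) := by
          rw [div_le_div_iff₀ (by positivity) (by positivity), one_mul, ← pow_add]
          refine pow_le_pow_right₀ hu ?_
          have : s * c * (2 * (N + 1)) + (a + 1) = B := by rw [hB]; ring
          rw [this]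
          exact Nat.le_mul_of_pos_right _ hN
        have h6 : 0 ≤ ((C₂ * (2 ^ s) ^ c) ^ (2 * (N + 1)) * 3 ^ M * C₁ ^ N) *
            (H : ℝ) ^ ((N + 1) * M - N) := by
          have : 0 ≤ (C₂ * (2 ^ s) ^ c) ^ (2 * (N + 1)) := Even.pow_nonneg (even_two_mul _) _
          positivity
        exact mul_le_mul_of_nonneg_left h5 h6

/-- **TAIL** -/
theorem tail (h : S_nzs) : S_tail := by
  classical
  intro N D s a hN hD hs
  obtain ⟨c, C₂, hc⟩ := Pool.Agent.W32.GE.pts D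
  obtain ⟨d₀, hd₀⟩ := h N D (2 * c * s * (N + 1) + (a + 1)) s hN hD
  refine ⟨d₀, fun d hd => ?_⟩
  obtain ⟨C₁, hC₁, h₁⟩ := hd₀ d hd
  set M := Fintype.card (E (N + 1) d) with hM
  set C₃ : ℝ := (C₂ * (2 ^ s) ^ c) ^ (2 * (N + 1)) * 3 ^ M * C₁ ^ N with hC₃
  have hC₃0 : 0 ≤ C₃ := by
    have : 0 ≤ (C₂ * (2 ^ s) ^ c) ^ (2 * (N + 1)) := Even.pow_nonneg (even_two_mul _) _
    positivity
  refine ⟨2 * C₃ + 1, by linarith, fun H hH κ => ?_⟩
  set W : Set (Sy N d) := {F | F ∈ Fb (N + 1) d H ∧ NoZero F ∧ Tl D s κ F} with hW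
  have hWf : W.Finite := (Finset.finite_toSet (Fb (N + 1) d H)).subset fun F h => h.1
  have hex : ∀ F : Sy N d, ∃ l : ℕ, Tl D s κ F → κ ≤ l ∧ TlAt D s l F := by
    intro F
    by_cases h : Tl D s κ F
    · obtain ⟨l, hl⟩ := exists_at h
      exact ⟨l, fun _ => hl⟩
    · exact ⟨0, fun h' => absurd h' h⟩
  choose f hf using hex
  let T : Finset ℕ := hWf.toFinset.image f
  have hTκ : ∀ l ∈ T, κ ≤ l := by
    intro l hl
    obtain ⟨F, hF, rfl⟩ := Finset.mem_image.1 hl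
    rw [Set.Finite.mem_toFinset] at hF
    exact (hf F hF.2.2).1
  let V : ℕ → Set (Sy N d) := fun l => {F | F ∈ Fb (N + 1) d H ∧ NoZero F ∧ TlAt D s l F}
  have hVf : ∀ l, (V l).Finite := fun l =>
    (Finset.finite_toSet (Fb (N + 1) d H)).subset fun F h => h.1
  have hV : ∀ l, ((V l).ncard : ℝ) ≤
      C₃ * (H : ℝ) ^ ((N + 1) * M - N) * (1 / 2) ^ ((a + 1) * l) := by
    intro l
    obtain ⟨A, hA1, hA⟩ := hc ((2 ^ (l + 1)) ^ s) (one_le_pow₀ (one_le_pow₀ (by norm_num)))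
    exact tlAt_count hC₁ hH hN hs rfl (fun F hF hF0 K _ _ hK P hP hle =>
      h₁ H hH F hF hF0 K hK P hP hle) hA1 (fun K _ _ hK x hx φ => hA K hK x hx φ)
  have hcov2 : hWf.toFinset ⊆ T.biUnion fun l => (hVf l).toFinset := by
    intro F hF
    rw [Finset.mem_biUnion]
    refine ⟨f F, Finset.mem_image_of_mem _ hF, ?_⟩
    rw [Set.Finite.mem_toFinset] at hF ⊢
    exact ⟨hF.1, hF.2.1, (hf F hF.2.2).2⟩
  have h2 : (W.ncard : ℝ) ≤ ∑ l ∈ T, ((V l).ncard : ℝ) := by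
    have h3 : W.ncard ≤ ∑ l ∈ T, (V l).ncard := by
      rw [Set.ncard_eq_toFinset_card _ hWf]
      refine (Finset.card_le_card hcov2).trans (Finset.card_biUnion_le.trans ?_)
      refine Finset.sum_le_sum fun l _ => ?_
      rw [Set.ncard_eq_toFinset_card _ (hVf l)]
    exact_mod_cast h3
  have h4 : ∑ l ∈ T, (1 / 2 : ℝ) ^ ((a + 1) * l) ≤ 2 * (1 / 2) ^ (a * κ) := by
    have h5 : ∑ l ∈ T, (1 / 2 : ℝ) ^ l ≤ 2 := by
      have h5 := summable_geometric_two.sum_le_tsum T (fun i _ => by positivity)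
      rwa [tsum_geometric_two] at h5
    calc ∑ l ∈ T, (1 / 2 : ℝ) ^ ((a + 1) * l) ≤ ∑ l ∈ T, (1 / 2 : ℝ) ^ (a * κ) * (1 / 2 : ℝ) ^ l := by
          refine Finset.sum_le_sum fun l hl => ?_
          rw [← pow_add]
          refine pow_le_pow_of_le_one (by norm_num) (by norm_num) ?_
          have h6 : a * κ ≤ a * l := Nat.mul_le_mul_left a (hTκ l hl)
          rw [add_mul, one_mul]
          omega
      _ = (1 / 2 : ℝ) ^ (a * κ) * ∑ l ∈ T, (1 / 2 : ℝ) ^ l := by rw [Finset.mul_sum]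
      _ ≤ (1 / 2 : ℝ) ^ (a * κ) * 2 := mul_le_mul_of_nonneg_left h5 (by positivity)
      _ = _ := mul_comm _ _
  have hH0 : (0 : ℝ) ≤ (H : ℝ) ^ ((N + 1) * M - N) := by positivity
  have hκ0 : (0 : ℝ) ≤ (1 / 2) ^ (a * κ) := by positivity
  change (W.ncard : ℝ) ≤ (2 * C₃ + 1) * (H : ℝ) ^ ((N + 1) * M - N) * (1 / 2) ^ (a * κ)
  calc (W.ncard : ℝ) ≤ ∑ l ∈ T, ((V l).ncard : ℝ) := h2
    _ ≤ ∑ l ∈ T, C₃ * (H : ℝ) ^ ((N + 1) * M - N) * (1 / 2) ^ ((a + 1) * l) :=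
        Finset.sum_le_sum fun l _ => hV l
    _ = C₃ * (H : ℝ) ^ ((N + 1) * M - N) * ∑ l ∈ T, (1 / 2 : ℝ) ^ ((a + 1) * l) := by
        rw [Finset.mul_sum]
    _ ≤ C₃ * (H : ℝ) ^ ((N + 1) * M - N) * (2 * (1 / 2) ^ (a * κ)) :=
        mul_le_mul_of_nonneg_left h4 (mul_nonneg hC₃0 hH0)
    _ = (2 * C₃) * ((H : ℝ) ^ ((N + 1) * M - N) * (1 / 2) ^ (a * κ)) := by ring
    _ ≤ (2 * C₃ + 1) * ((H : ℝ) ^ ((N + 1) * M - N) * (1 / 2) ^ (a * κ)) :=
        mul_le_mul_of_nonneg_right (by linarith) (mul_nonneg hH0 hκ0)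
    _ = _ := by ring

end Pool.Agent.Q123.MPP
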